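import Mathlib
import Pool.Agent.R343.CycUnit
import Pool.Agent.R343.CycLow

set_option autoImplicit false

/-!
The largest pre-period of the cyclic sum map on `n`-tuples modulo `m`, for all `m` and `n`.

Method: the map is multiplication by `y = 1 + x` on `(ℤ/m)[x] / (x ^ n - 1)`. At a prime `p` dividing
`m` the part of this ring on which `y` is nilpotent is `(ℤ/p^k)[x] / (x ^ Q ± 1)` with `Q` the largest
power of `p` dividing `n` (if `n` is even or `p = 2`; otherwise there is no such part), and the index of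
nilpotency of `y` is found by giving `p` the weight `Q - Q / p` and `y` the weight `1`.
-/

namespace Pool.Agent.Results.MP_6a5936_nt.LargestPrePeriod

/-- The cyclic sum map: `(T a) i = a i + a (i + 1)`, indices modulo `n`. -/
def T (m n : ℕ) (a : ZMod n → ZMod m) : ZMod n → ZMod m := fun i => a i + a (i + 1)

/-- `P` is the cycle length of `a`: the least positive integer for which some positive integer `N`
satisfies `T^(k+P) a = T^k a` for all `k ≥ N`. -/
def IsCycleLength (m n : ℕ) (a : ZMod n → ZMod m) (P : ℕ) : Prop :=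
  IsLeast {P : ℕ | 1 ≤ P ∧ ∃ N : ℕ, 1 ≤ N ∧ ∀ k, N ≤ k → (T m n)^[k + P] a = (T m n)^[k] a} P

/-- `N` is the pre-period of `a`: the least positive integer with `T^(k+P) a = T^k a` for all
`k ≥ N`, where `P` is the cycle length of `a`. -/
def IsPrePeriod (m n : ℕ) (a : ZMod n → ZMod m) (N : ℕ) : Prop :=
  ∃ P : ℕ, IsCycleLength m n a P ∧
    IsLeast {N : ℕ | 1 ≤ N ∧ ∀ k, N ≤ k → (T m n)^[k + P] a = (T m n)^[k] a} N

/-- The contribution of the prime divisor `p` of `m`. Let `k` and `a` be the exponents of `p` in `m` and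
`n`. If `n` is even and `p` divides `n` it is `p ^ (a - 1) * (p + (k - 1) * (p - 1))`; otherwise it
is `k` if `p = 2`, and `1` if `p` is odd. -/
def primeTerm (m n p : ℕ) : ℕ :=
  if Even n ∧ p ∣ n then
    p ^ (n.factorization p - 1) * (p + (m.factorization p - 1) * (p - 1))
  else if p = 2 then m.factorization 2 else 1

/-- The maximum of `1` and of the contributions of the prime divisors of `m`. -/
def formula (m n : ℕ) : ℕ := max 1 (m.primeFactors.sup (primeTerm m n))

open Pool.Agent.R343.Cyc (nil_pow)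

lemma primeTerm_eq : primeTerm = Pool.Agent.R343.Cyc.primeTerm := rfl

/-! ### Operators -/

/-- the shift -/
def sh (m n : ℕ) : (ZMod n → ZMod m) →ₗ[ℤ] (ZMod n → ZMod m) where
  toFun a := fun i => a (i + 1)
  map_add' _ _ := rfl
  map_smul' _ _ := rfl

lemma sh_pow (m n j : ℕ) (a : ZMod n → ZMod m) (i : ZMod n) : ((sh m n) ^ j) a i = a (i + j) := by
  induction j generalizing a i with
  | zero => simp
  | succ j ih =>
    rw [pow_succ, Module.End.mul_apply, ih]
    change a (i + j + 1) = _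
    congr 1
    push_cast; ring

lemma sh_n (m n : ℕ) : (sh m n) ^ n = 1 := by
  ext1 a
  funext i
  rw [sh_pow]
  simp

lemma T_pow (m n k : ℕ) (a : ZMod n → ZMod m) : (T m n)^[k] a = ((1 + sh m n) ^ k) a := by
  induction k generalizing a with
  | zero => rfl
  | succ k ih =>
    rw [Function.iterate_succ_apply, ih, pow_succ, Module.End.mul_apply]
    rfl

lemma m_zero (m n : ℕ) : ((m : ℤ) : Module.End ℤ (ZMod n → ZMod m)) = 0 := by
  ext1 a
  funext i
  have : ((m : ℤ) : Module.End ℤ (ZMod n → ZMod m)) a = (m : ℤ) • a := by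
    rw [Module.End.intCast_apply]
  rw [this]
  simp

/-- In a ring with `m = 0`, `x ^ n = 1` and `1 + x` nilpotent. -/
lemma ring_key {D : Type*} [CommRing D] {m n M : ℕ} (hm : 1 ≤ m) (hn : 1 ≤ n)
    (hM : ∀ p ∈ m.primeFactors, primeTerm m n p ≤ M) {x : D} (e1 : (1 + x) ^ (M + 1) = 0)
    (e2 : x ^ n = 1) (e3 : (m : D) = 0) : (1 + x) ^ M = 0 := by
  set g := addOrderOf ((1 + x) ^ M) with hg
  have hgm : g ∣ m := by
    rw [hg, addOrderOf_dvd_iff_nsmul_eq_zero, nsmul_eq_mul, e3, zero_mul]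
  have hgp : ∀ p ∈ m.primeFactors, g ∣ m / p ^ m.factorization p := by
    intro p hp
    have hpp := Nat.prime_of_mem_primeFactors hp
    have hpd := Nat.dvd_of_mem_primeFactors hp
    rw [hg, addOrderOf_dvd_iff_nsmul_eq_zero, nsmul_eq_mul]
    -- in the quotient by `p ^ k`
    have hq : Ideal.Quotient.mk (Ideal.span {((p : D)) ^ m.factorization p}) ((1 + x) ^ M) = 0 := by
      generalize hJ : Ideal.span {((p : D)) ^ m.factorization p} = J
      have hpJ : (p : D ⧸ J) ^ m.factorization p = 0 := by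
        have : Ideal.Quotient.mk J ((p : D) ^ m.factorization p) = 0 :=
          Ideal.Quotient.eq_zero_iff_mem.2 (by rw [← hJ]; exact Ideal.subset_span rfl)
        rw [← this]; simp
      have h1 := nil_pow (R := D ⧸ J) hpp hn hm hpd hpJ (x := Ideal.Quotient.mk J x)
        (by rw [← map_pow, e2, map_one])
        ⟨M + 1, by rw [← map_one (Ideal.Quotient.mk J), ← map_add, ← map_pow, e1, map_zero]⟩
      have h2 : Ideal.Quotient.mk J ((1 + x) ^ M) = (1 + Ideal.Quotient.mk J x) ^ M := by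
        rw [map_pow, map_add, map_one]
      rw [h2, ← Nat.sub_add_cancel (hM p hp), pow_add, primeTerm_eq, h1, mul_zero]
    obtain ⟨r, hr⟩ := Ideal.mem_span_singleton.1 (Ideal.Quotient.eq_zero_iff_mem.1 hq)
    rw [hr, ← mul_assoc, ← Nat.cast_pow, ← Nat.cast_mul, Nat.div_mul_cancel (Nat.ordProj_dvd m p),
      e3, zero_mul]
  have hg1 : g = 1 := by
    by_contra hne
    have hpg := Nat.minFac_prime hne
    have hpm : g.minFac ∣ m := (Nat.minFac_dvd g).trans hgm
    exact Nat.not_dvd_ordCompl hpg (by omega)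
      ((Nat.minFac_dvd g).trans (hgp _ (Nat.mem_primeFactors.2 ⟨hpg, hpm, by omega⟩)))
  rw [hg, AddMonoid.addOrderOf_eq_one_iff] at hg1
  exact hg1

open Polynomial in
/-- The key identity: `T ^ M = w T ^ (M + 1)`. -/
lemma key (m n M : ℕ) (hm : 1 ≤ m) (hn : 1 ≤ n) (hM : ∀ p ∈ m.primeFactors, primeTerm m n p ≤ M) :
    ∃ w : Module.End ℤ (ZMod n → ZMod m), Commute w (1 + sh m n) ∧
      (1 + sh m n) ^ M = w * (1 + sh m n) ^ (M + 1) := by
  have hmem : (1 + X : ℤ[X]) ^ M ∈
      Ideal.span ({(1 + X) ^ (M + 1), X ^ n - 1, C (m : ℤ)} : Set ℤ[X]) := by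
    generalize hI : Ideal.span ({(1 + X) ^ (M + 1), X ^ n - 1, C (m : ℤ)} : Set ℤ[X]) = I
    rw [← Ideal.Quotient.eq_zero_iff_mem]
    have e0 : Ideal.Quotient.mk I ((1 + X : ℤ[X]) ^ M) = (1 + Ideal.Quotient.mk I X) ^ M := by simp
    have e1 : (1 + Ideal.Quotient.mk I X) ^ (M + 1) = 0 := by
      have : Ideal.Quotient.mk I ((1 + X : ℤ[X]) ^ (M + 1)) = 0 :=
        Ideal.Quotient.eq_zero_iff_mem.2 (by rw [← hI]; exact Ideal.subset_span (by simp))
      rw [← this]; simp
    have e2 : (Ideal.Quotient.mk I X) ^ n = 1 := by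
      have : Ideal.Quotient.mk I (X ^ n - 1 : ℤ[X]) = 0 :=
        Ideal.Quotient.eq_zero_iff_mem.2 (by rw [← hI]; exact Ideal.subset_span (by simp))
      have h2 : (Ideal.Quotient.mk I X) ^ n - 1 = 0 := by rw [← this]; simp
      exact sub_eq_zero.1 h2
    have e3 : (m : ℤ[X] ⧸ I) = 0 := by
      have : Ideal.Quotient.mk I (C (m : ℤ) : ℤ[X]) = 0 :=
        Ideal.Quotient.eq_zero_iff_mem.2 (by rw [← hI]; exact Ideal.subset_span (by simp))
      rw [← this]; simp
    rw [e0]
    exact ring_key hm hn hM e1 e2 e3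
  rw [Ideal.mem_span_insert] at hmem
  obtain ⟨A, z, hz, hA⟩ := hmem
  rw [Ideal.mem_span_pair] at hz
  obtain ⟨B, C', hz⟩ := hz
  have hev := congrArg (aeval (sh m n)) hA
  rw [← hz] at hev
  simp only [map_add, map_mul, map_pow, map_sub, map_one, aeval_X, sh_n, sub_self, mul_zero,
    zero_add] at hev
  have hC0 : aeval (sh m n) (C (m : ℤ) : ℤ[X]) = 0 := by
    rw [aeval_C]
    have := m_zero m n
    simpa using this
  rw [hC0, mul_zero, add_zero] at hev
  refine ⟨aeval (sh m n) A, ?_, hev⟩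
  have e : (1 + sh m n) = aeval (sh m n) (1 + X : ℤ[X]) := by simp
  rw [e]
  unfold Commute SemiconjBy
  rw [← map_mul, ← map_mul, mul_comm]

/-- `T ^ M = w T ^ (M + j)` -/
lemma key_iter (m n M : ℕ) (hm : 1 ≤ m) (hn : 1 ≤ n)
    (hM : ∀ p ∈ m.primeFactors, primeTerm m n p ≤ M) (j : ℕ) :
    ∃ w : Module.End ℤ (ZMod n → ZMod m), Commute w (1 + sh m n) ∧
      (1 + sh m n) ^ M = w * (1 + sh m n) ^ (M + j) := by
  obtain ⟨w, hw, h⟩ := key m n M hm hn hM
  induction j with
  | zero => exact ⟨1, Commute.one_left _, by rw [one_mul, add_zero]⟩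
  | succ j ih =>
    obtain ⟨v, hv, h'⟩ := ih
    refine ⟨v * w, hv.mul_left hw, ?_⟩
    have e : (1 + sh m n) ^ (M + (j + 1)) = (1 + sh m n) ^ (M + 1) * (1 + sh m n) ^ j := by
      rw [← pow_add]; congr 1; ring
    rw [e, ← mul_assoc, mul_assoc v, ← h, mul_assoc, ← pow_add, ← h']

/-- From some place on, hence from the place `M` on. -/
lemma from_M (m n M : ℕ) (hm : 1 ≤ m) (hn : 1 ≤ n)
    (hM : ∀ p ∈ m.primeFactors, primeTerm m n p ≤ M) (a : ZMod n → ZMod m) {P N : ℕ}
    (h : ∀ k, N ≤ k → (T m n)^[k + P] a = (T m n)^[k] a) (k : ℕ) (hk : M ≤ k) :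
    (T m n)^[k + P] a = (T m n)^[k] a := by
  obtain ⟨w, hw, hw'⟩ := key_iter m n M hm hn hM N
  have e1 : (1 + sh m n) ^ k = w * (1 + sh m n) ^ (k + N) := by
    have : (1 + sh m n) ^ k = (1 + sh m n) ^ M * (1 + sh m n) ^ (k - M) := by
      rw [← pow_add]; congr 1; omega
    rw [this, hw', mul_assoc, ← pow_add]
    congr 2; omega
  have e2 : (1 + sh m n) ^ (k + P) = w * (1 + sh m n) ^ (k + N + P) := by
    rw [pow_add, e1, mul_assoc, ← pow_add]
  have h1 := h (k + N) (by omega)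
  rw [T_pow, T_pow] at h1 ⊢
  rw [e1, e2, Module.End.mul_apply, Module.End.mul_apply, h1]

lemma exists_period (m n : ℕ) (hm : 1 ≤ m) (hn : 1 ≤ n) (a : ZMod n → ZMod m) :
    ∃ P : ℕ, 1 ≤ P ∧ ∃ N : ℕ, 1 ≤ N ∧ ∀ k, N ≤ k → (T m n)^[k + P] a = (T m n)^[k] a := by
  have : NeZero m := ⟨by omega⟩
  have : NeZero n := ⟨by omega⟩
  obtain ⟨i, j, hij, h⟩ := Finite.exists_ne_map_eq_of_infinite fun k : ℕ => (T m n)^[k] a
  wlog hlt : i < j generalizing i j
  · exact this j i hij.symm h.symm (by omega)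
  refine ⟨j - i, by omega, i + 1, by omega, fun k hk => ?_⟩
  obtain ⟨t, rfl⟩ := Nat.exists_eq_add_of_le (by omega : i ≤ k)
  have e1 : i + t + (j - i) = t + j := by omega
  rw [e1, Function.iterate_add_apply, Nat.add_comm i t, Function.iterate_add_apply]
  exact congrArg _ h.symm

lemma exists_prePeriod (m n : ℕ) (hm : 1 ≤ m) (hn : 1 ≤ n) (a : ZMod n → ZMod m) :
    ∃ N, IsPrePeriod m n a N := by
  classical
  have h := exists_period m n hm hn a
  obtain ⟨-, N, hN⟩ := Nat.find_spec h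
  have h' : ∃ N : ℕ, 1 ≤ N ∧ ∀ k, N ≤ k → (T m n)^[k + Nat.find h] a = (T m n)^[k] a := ⟨N, hN⟩
  exact ⟨Nat.find h', Nat.find h, ⟨Nat.find_spec h, fun P hP => Nat.find_min' h hP⟩,
    Nat.find_spec h', fun N hN => Nat.find_min' h' hN⟩

lemma prePeriod_le (m n : ℕ) (hm : 1 ≤ m) (hn : 1 ≤ n) (a : ZMod n → ZMod m) {N : ℕ}
    (hN : IsPrePeriod m n a N) : N ≤ formula m n := by
  obtain ⟨P, hP, hN1, hN2⟩ := hN
  apply hN2
  refine ⟨le_max_left _ _, ?_⟩
  exact from_M m n (formula m n) hm hn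
    (fun p hp => (Finset.le_sup (f := primeTerm m n) hp).trans (le_max_right _ _)) a hN1.2

/-! ### The lower bound -/

lemma lower_of_ring {m n : ℕ} (hn : 1 ≤ n) {D : Type} [CommRing D]
    (f : ZMod m →+ D) (hf : f 1 = 1) (x : D) (hx : x ^ n = 1) {M : ℕ}
    (hne : (1 + x) ^ (M - 1) ≠ 0) (hnil : IsNilpotent (1 + x)) {N P : ℕ} (hP : 1 ≤ P)
    (h : ∀ k, N ≤ k → (T m n)^[k + P] (Pi.single 0 1) = (T m n)^[k] (Pi.single 0 1)) : M ≤ N := by
  have : NeZero n := ⟨by omega⟩
  set Ψ : (ZMod n → ZMod m) → D := fun a => ∑ i : ZMod n, f (a i) * x ^ (-i).val with hΨ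
  have hstep : ∀ a, Ψ (T m n a) = (1 + x) * Ψ a := by
    intro a
    have h1 : ∑ i : ZMod n, f (a (i + 1)) * x ^ (-i).val = x * ∑ i : ZMod n, f (a i) * x ^ (-i).val := by
      rw [Finset.mul_sum, ← Equiv.sum_comp (Equiv.addRight (-1 : ZMod n))]
      apply Finset.sum_congr rfl
      intro i _
      simp only [Equiv.coe_addRight, neg_add_cancel_right, neg_add_rev, neg_neg]
      have e : x ^ (1 + -i : ZMod n).val = x * x ^ (-i).val := by
        rw [ZMod.val_add, ← pow_eq_pow_mod _ hx, pow_add, ZMod.val_one_eq_one_mod,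
          ← pow_eq_pow_mod _ hx, pow_one]
      rw [e]; ring
    have h2 : Ψ (T m n a) = ∑ i : ZMod n, f (a i) * x ^ (-i).val +
        ∑ i : ZMod n, f (a (i + 1)) * x ^ (-i).val := by
      rw [← Finset.sum_add_distrib]
      apply Finset.sum_congr rfl
      intro i _
      rw [T, map_add, add_mul]
    rw [h2, h1]
    simp only [hΨ]
    ring
  have hδ : Ψ (Pi.single 0 1) = 1 := by
    simp only [hΨ]
    rw [Finset.sum_eq_single 0]
    · simp [hf]
    · intro i _ hi
      rw [Pi.single_eq_of_ne hi, map_zero, zero_mul]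
    · intro h; exact absurd (Finset.mem_univ _) h
  have hk : ∀ k, Ψ ((T m n)^[k] (Pi.single 0 1)) = (1 + x) ^ k := by
    intro k
    induction k with
    | zero => simpa using hδ
    | succ k ih => rw [Function.iterate_succ_apply', hstep, ih, pow_succ']
  by_contra hlt
  push Not at hlt
  have hall : ∀ t : ℕ, (T m n)^[M - 1 + t * P] (Pi.single 0 1) = (T m n)^[M - 1] (Pi.single 0 1) := by
    intro t
    induction t with
    | zero => simp
    | succ t ih =>
      have e : M - 1 + (t + 1) * P = M - 1 + t * P + P := by ring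
      rw [e, h (M - 1 + t * P) (by omega), ih]
  obtain ⟨K, hK⟩ := hnil
  have h1 := congrArg Ψ (hall K)
  rw [hk, hk] at h1
  apply hne
  rw [← h1]
  have : (1 + x) ^ (M - 1 + K * P) = (1 + x) ^ K * (1 + x) ^ (M - 1 + K * P - K) := by
    rw [← pow_add]; congr 1
    have : K ≤ K * P := Nat.le_mul_of_pos_right _ hP
    omega
  rw [this, hK, zero_mul]

/-- the additive map from `ℤ/m` to a ring in which `p ^ k = 0`, where `p ^ k` divides `m` -/
lemma exists_add_map {m q : ℕ} {D : Type} [CommRing D] (hq : (q : D) = 0) (hqm : q ∣ m) :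
    ∃ f : ZMod m →+ D, f 1 = 1 := by
  have hm0 : (Int.castAddHom D) (m : ℤ) = 0 := by
    obtain ⟨c, rfl⟩ := hqm
    simp [hq]
  refine ⟨ZMod.lift m ⟨Int.castAddHom D, hm0⟩, ?_⟩
  have := ZMod.lift_coe m ⟨Int.castAddHom D, hm0⟩ (1 : ℤ)
  simpa using this

lemma lower (m n : ℕ) (hm : 1 ≤ m) (hn : 1 ≤ n) {N P : ℕ} (hN : 1 ≤ N) (hP : 1 ≤ P)
    (h : ∀ k, N ≤ k → (T m n)^[k + P] (Pi.single 0 1) = (T m n)^[k] (Pi.single 0 1)) :
    formula m n ≤ N := by
  unfold formula
  apply max_le hN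
  apply Finset.sup_le
  intro p hp
  have hpp := Nat.prime_of_mem_primeFactors hp
  have hpd := Nat.dvd_of_mem_primeFactors hp
  have hk : 1 ≤ m.factorization p := (hpp.dvd_iff_one_le_factorization (by omega)).1 hpd
  unfold primeTerm
  split_ifs with h1 h2
  · obtain ⟨D, _, x, hx, hpk, hnil, hne⟩ :=
      Pool.Agent.R343.Cyc.exists_ring hpp hn h1.1 h1.2 hk
    obtain ⟨f, hf⟩ := exists_add_map (D := D) (q := p ^ m.factorization p) (by push_cast; exact hpk)
      (Nat.ordProj_dvd m p)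
    exact lower_of_ring hn f hf x hx hne hnil hP h
  · subst h2
    obtain ⟨f, hf⟩ := exists_add_map (D := ZMod (2 ^ m.factorization 2)) (q := 2 ^ m.factorization 2)
      (by rw [ZMod.natCast_self]) (Nat.ordProj_dvd m 2)
    have e : (1 : ZMod (2 ^ m.factorization 2)) + 1 = ((2 : ℕ) : ZMod (2 ^ m.factorization 2)) := by
      norm_num
    refine lower_of_ring hn f hf 1 (one_pow _) ?_ ⟨m.factorization 2, ?_⟩ hP h
    · rw [e, ← Nat.cast_pow, Ne, ZMod.natCast_eq_zero_iff]
      intro hd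
      have := (Nat.pow_dvd_pow_iff_le_right (by norm_num : 1 < 2)).1 hd
      omega
    · rw [e, ← Nat.cast_pow, ZMod.natCast_self]
  · exact hN

/-- For all positive integers `m`, `n` every tuple has a pre-period, and the largest pre-period of the
cyclic sum map on `n`-tuples modulo `m` is the maximum of `1` and of the contributions of the prime
divisors of `m`. -/
theorem result (m n : ℕ) (hm : 1 ≤ m) (hn : 1 ≤ n) :
    (∀ a : ZMod n → ZMod m, ∃ N, IsPrePeriod m n a N) ∧
    IsGreatest {N : ℕ | ∃ a : ZMod n → ZMod m, IsPrePeriod m n a N} (formula m n) := by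
  refine ⟨exists_prePeriod m n hm hn, ?_, ?_⟩
  · obtain ⟨N, hN⟩ := exists_prePeriod m n hm hn (Pi.single 0 1)
    have h1 := prePeriod_le m n hm hn _ hN
    obtain ⟨P, hP, hN1, hN2⟩ := id hN
    have h2 := lower m n hm hn hN1.1 hP.1.1 hN1.2
    exact ⟨Pi.single 0 1, (le_antisymm h1 h2) ▸ hN⟩
  · rintro N ⟨a, ha⟩
    exact prePeriod_le m n hm hn a ha

end Pool.Agent.Results.MP_6a5936_nt.LargestPrePeriod
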